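import Mathlib

/-!
# The square completion language of a word with two letters is semi-linear

`Lang w` is the set of all words obtained from `w` by prefix-square and suffix-square completions.
For every word `w` in which at most two different letters occur, the Parikh image of `Lang w` is
semi-linear.

Proof. From every word with the letters `a` and `b` one reaches a word which begins with `a` and ends
with `b`, and then these letters can be added without restriction. So it suffices to consider the
words of `Lang w` with exactly `j` occurrences of `a`, for a fixed `j` (or with the roles of the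
letters exchanged). If one of them begins or ends with `b`, then all large numbers of occurrences
of `b` are possible; otherwise there are only finitely many of them, by induction on `j`.
-/

set_option autoImplicit false

namespace Pool.Agent.Results.MP_9a8bc6_lc.TwoLetters

open scoped Pointwise

variable {α : Type}

/-- One completion step: `u = t y x y` is rewritten as `u x`, or `u = y x y t` is rewritten as
`x u`. -/
def Step (u v : List α) : Prop :=
  (∃ t x y : List α, u = t ++ (y ++ x ++ y) ∧ v = u ++ x) ∨
  (∃ t x y : List α, u = (y ++ x ++ y) ++ t ∧ v = x ++ u)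

/-- `L(w)`: the words obtained from `w` by finitely many completion steps. -/
def Lang (w : List α) : Set (List α) := {v | Relation.ReflTransGen Step w v}

/-- The Parikh vector of a word. -/
def parikh [DecidableEq α] (u : List α) : α → ℕ := fun c => u.count c

theorem self_mem (w : List α) : w ∈ Lang w := Relation.ReflTransGen.refl

theorem mem_step {w u v : List α} (hu : u ∈ Lang w) (h : Step u v) : v ∈ Lang w :=
  Relation.ReflTransGen.tail hu h

theorem lang_suffix {w p s : List α} (h : p ++ s ∈ Lang w) : (p ++ s) ++ s ∈ Lang w :=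
  mem_step h (Or.inl ⟨p, s, [], by simp, rfl⟩)

theorem lang_prefix {w p s : List α} (h : p ++ s ∈ Lang w) : p ++ (p ++ s) ∈ Lang w :=
  mem_step h (Or.inr ⟨s, p, [], by simp, rfl⟩)

theorem add_last {w t : List α} {b : α} (h : t ++ [b] ∈ Lang w) (i : ℕ) :
    (t ++ List.replicate i b) ++ [b] ∈ Lang w := by
  induction i with
  | zero => simpa using h
  | succ i ih =>
    have h1 := lang_suffix ih
    have e : (t ++ List.replicate (i + 1) b) ++ [b] = ((t ++ List.replicate i b) ++ [b]) ++ [b] := by
      rw [List.replicate_succ', ← List.append_assoc]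
    rw [e]
    exact h1

theorem add_first {w t : List α} {b : α} (h : [b] ++ t ∈ Lang w) (i : ℕ) :
    [b] ++ (List.replicate i b ++ t) ∈ Lang w := by
  induction i with
  | zero => simpa using h
  | succ i ih =>
    have h1 := lang_prefix ih
    have e : [b] ++ (List.replicate (i + 1) b ++ t) = [b] ++ ([b] ++ (List.replicate i b ++ t)) := by
      rw [List.replicate_succ]
      simp
    rw [e]
    exact h1

theorem make_last {w v : List α} {b : α} (hv : v ∈ Lang w) (hb : b ∈ v) :
    ∃ t, v ++ t ++ [b] ∈ Lang w := by
  obtain ⟨s, z, rfl⟩ := List.append_of_mem hb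
  have h1 : (s ++ b :: z) ++ (b :: z) ∈ Lang w := lang_suffix hv
  refine ⟨b :: z, mem_step h1 (Or.inl ⟨s ++ [b], [b], z, by simp, by simp⟩)⟩

theorem make_first {w v : List α} {b : α} (hv : v ∈ Lang w) (hb : b ∈ v) :
    ∃ t, [b] ++ (t ++ v) ∈ Lang w := by
  obtain ⟨s, z, rfl⟩ := List.append_of_mem hb
  have h0 : (s ++ [b]) ++ z ∈ Lang w := by simpa using hv
  have h1 : (s ++ [b]) ++ ((s ++ [b]) ++ z) ∈ Lang w := lang_prefix h0
  refine ⟨s ++ [b], mem_step h1 (Or.inr ⟨[b] ++ z, [b], s, by simp, by simp⟩)⟩

theorem letters {w v : List α} (hv : v ∈ Lang w) : ∀ c ∈ v, c ∈ w := by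
  induction hv with
  | refl => exact fun c hc => hc
  | tail hu hs ih =>
    rcases hs with ⟨t, x, y, rfl, rfl⟩ | ⟨t, x, y, rfl, rfl⟩
    · intro c hc
      apply ih
      simp only [List.mem_append] at hc ⊢
      tauto
    · intro c hc
      apply ih
      simp only [List.mem_append] at hc ⊢
      tauto

theorem last_step {w v : List α} (hv : v ∈ Lang w) :
    v = w ∨ ∃ u ∈ Lang w, Step u v ∧ u ≠ v := by
  induction hv with
  | refl => exact Or.inl rfl
  | tail hu hs ih =>
    rename_i u v
    by_cases h : u = v
    · rw [← h]
      exact ih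
    · exact Or.inr ⟨u, hu, hs, h⟩

theorem finite_succ (u : List α) : {v | Step u v}.Finite := by
  have hfin : {x : List α | x ∈ u.sublists}.Finite := List.finite_toSet _
  refine ((hfin.image fun x => u ++ x).union (hfin.image fun x => x ++ u)).subset ?_
  rintro v (⟨t, x, y, hu, rfl⟩ | ⟨t, x, y, hu, rfl⟩)
  · left
    refine ⟨x, List.mem_sublists.2 ?_, rfl⟩
    rw [hu]
    exact List.IsInfix.sublist ⟨t ++ y, y, by simp⟩
  · right
    refine ⟨x, List.mem_sublists.2 ?_, rfl⟩
    rw [hu]
    exact List.IsInfix.sublist ⟨y, y ++ t, by simp⟩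

section count

variable [DecidableEq α]

theorem exists_suffix (a : α) (t : List α) (k : ℕ) (hk : k ≤ t.count a) :
    ∃ p s, t = p ++ s ∧ s.count a = k := by
  induction t with
  | nil =>
    refine ⟨[], [], rfl, ?_⟩
    simp only [List.count_nil] at hk ⊢
    omega
  | cons c t ih =>
    by_cases h : k ≤ t.count a
    · obtain ⟨p, s, h1, h2⟩ := ih h
      exact ⟨c :: p, s, by rw [h1]; rfl, h2⟩
    · refine ⟨[], c :: t, rfl, ?_⟩
      rw [List.count_cons] at hk ⊢
      split_ifs at hk ⊢ <;> omega

theorem exists_prefix (a : α) (t : List α) (k : ℕ) (hk : k ≤ t.count a) :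
    ∃ p s, t = p ++ s ∧ p.count a = k := by
  obtain ⟨p, s, h1, h2⟩ := exists_suffix a t.reverse k (by rwa [List.count_reverse])
  refine ⟨s.reverse, p.reverse, ?_, by rwa [List.count_reverse]⟩
  rw [← List.reverse_append, ← h1, List.reverse_reverse]

/-- **Few words or many occurrences of `b`.** -/
theorem fin_or {w : List α} {a b : α} (hab : ∀ c ∈ w, c = a ∨ c = b) (j : ℕ) :
    (∃ v ∈ Lang w, v.count a = j ∧ (v.head? = some b ∨ v.getLast? = some b)) ∨
      {v | v ∈ Lang w ∧ v.count a = j}.Finite := by
  induction j using Nat.strong_induction_on with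
  | _ j ih =>
    by_cases h : ∃ v ∈ Lang w, v.count a = j ∧ (v.head? = some b ∨ v.getLast? = some b)
    · exact Or.inl h
    right
    have hF : (⋃ j' ∈ Set.Iio j, {u | (u ∈ Lang w ∧ u.count a = j') ∧
        {v | v ∈ Lang w ∧ v.count a = j'}.Finite}).Finite := by
      refine (Set.finite_Iio j).biUnion fun j' _ => ?_
      by_cases hfin : {v | v ∈ Lang w ∧ v.count a = j'}.Finite
      · exact hfin.subset fun u hu => hu.1
      · refine Set.finite_empty.subset fun u hu => ?_
        exact hfin hu.2
    refine ((Set.finite_singleton w).union (hF.biUnion fun u _ => finite_succ u)).subset ?_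
    rintro v ⟨hv, hvj⟩
    rcases last_step hv with rfl | ⟨u, hu, hs, hne⟩
    · exact Or.inl rfl
    right
    -- only letters `a` and `b`
    have hlet : ∀ x : List α, (∀ c ∈ x, c ∈ v) → x.count a = 0 → ∀ c ∈ x, c = b := by
      intro x hx h0 c hc
      rcases hab c (letters hv c (hx c hc)) with rfl | h1
      · exact absurd hc (List.count_eq_zero.1 h0)
      · exact h1
    have key : ∀ x : List α, (v = u ++ x ∨ v = x ++ u) → x.count a ≤ u.count a →
        u.count a < j ∧ {v | v ∈ Lang w ∧ v.count a = u.count a}.Finite := by
      intro x hx hxu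
      have hxne : x ≠ [] := by
        rintro rfl
        rcases hx with hx | hx <;> exact hne (by rw [hx]; simp)
      have hcnt : j = u.count a + x.count a := by
        rw [← hvj]
        rcases hx with hx | hx <;> rw [hx, List.count_append]
        omega
      have hxpos : 0 < x.count a := by
        by_contra h0
        have h0' : x.count a = 0 := by omega
        have hall := hlet x (by
          intro c hc
          rcases hx with hx | hx <;> rw [hx] <;> simp [hc]) h0'
        apply h
        refine ⟨v, hv, hvj, ?_⟩
        rcases hx with hx | hx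
        · right
          rw [hx, List.getLast?_append_of_ne_nil _ hxne, List.getLast?_eq_some_getLast hxne,
            hall _ (List.getLast_mem hxne)]
        · left
          rw [hx, List.head?_append_of_ne_nil _ hxne, List.head?_eq_some_head hxne,
            hall _ (List.head_mem hxne)]
      have hlt : u.count a < j := by omega
      refine ⟨hlt, ?_⟩
      rcases ih _ hlt with ⟨t, ht, htc, hb⟩ | hfin
      · exfalso
        apply h
        rcases hb with hb | hb
        · obtain ⟨p, s, rfl, h2⟩ := exists_prefix a t (x.count a) (by omega)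
          have hpne : p ≠ [] := by
            rintro rfl
            simp at h2
            omega
          refine ⟨p ++ (p ++ s), lang_prefix ht, ?_, Or.inl ?_⟩
          · rw [List.count_append, htc]
            omega
          · rw [List.head?_append_of_ne_nil _ hpne] at hb ⊢
            exact hb
        · obtain ⟨p, s, rfl, h2⟩ := exists_suffix a t (x.count a) (by omega)
          have hsne : s ≠ [] := by
            rintro rfl
            simp at h2
            omega
          refine ⟨(p ++ s) ++ s, lang_suffix ht, ?_, Or.inr ?_⟩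
          · rw [List.count_append, htc]
            omega
          · rw [List.getLast?_append_of_ne_nil _ hsne] at hb ⊢
            exact hb
      · exact hfin
    have hfinal : u.count a < j ∧ {v | v ∈ Lang w ∧ v.count a = u.count a}.Finite := by
      rcases hs with ⟨t, x, y, h1, h2⟩ | ⟨t, x, y, h1, h2⟩
      · refine key x (Or.inl h2) ?_
        rw [h1]
        simp only [List.count_append]
        omega
      · refine key x (Or.inr h2) ?_
        rw [h1]
        simp only [List.count_append]
        omega
    exact Set.mem_iUnion₂.2 ⟨u, Set.mem_iUnion₂.2 ⟨u.count a, hfinal.1, ⟨hu, rfl⟩, hfinal.2⟩,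
      hs⟩

/-- the numbers of occurrences of `b` in the words with `j` occurrences of `a` -/
theorem semi_slice {w : List α} {a b : α} (hne : a ≠ b) (hab : ∀ c ∈ w, c = a ∨ c = b) (j : ℕ) :
    IsSemilinearSet {m : ℕ | ∃ v ∈ Lang w, v.count a = j ∧ v.count b = m} := by
  rcases fin_or hab j with ⟨v, hv, hvj, hb⟩ | hfin
  · rw [Nat.isSemilinearSet_iff_ultimately_periodic]
    have hall : ∀ m ≥ v.count b, m ∈ {m : ℕ | ∃ v ∈ Lang w, v.count a = j ∧ v.count b = m} := by
      intro m hm
      rcases hb with hb | hb
      · obtain ⟨t, rfl⟩ : ∃ t, v = [b] ++ t := by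
          cases v with
          | nil => simp at hb
          | cons c t =>
            simp only [List.head?_cons, Option.some.injEq] at hb
            exact ⟨t, by rw [hb]; rfl⟩
        refine ⟨_, add_first hv (m - ([b] ++ t).count b), ?_, ?_⟩
        · simp only [List.count_append, List.count_replicate] at hvj ⊢
          rw [if_neg (by simpa using fun h => hne h.symm)]
          omega
        · simp only [List.count_append, List.count_replicate] at hm ⊢
          simp only [beq_self_eq_true, if_true]
          omega
      · obtain ⟨t, rfl⟩ : ∃ t, v = t ++ [b] := by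
          have hvne : v ≠ [] := by
            rintro rfl
            simp at hb
          refine ⟨v.dropLast, ?_⟩
          rw [List.getLast?_eq_some_getLast hvne, Option.some.injEq] at hb
          rw [← hb]
          exact (List.dropLast_append_getLast hvne).symm
        refine ⟨_, add_last hv (m - (t ++ [b]).count b), ?_, ?_⟩
        · simp only [List.count_append, List.count_replicate] at hvj ⊢
          rw [if_neg (by simpa using fun h => hne h.symm)]
          omega
        · simp only [List.count_append, List.count_replicate] at hm ⊢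
          simp only [beq_self_eq_true, if_true]
          omega
    exact ⟨v.count b, 1, one_pos, fun x hx => ⟨fun _ => hall _ (by omega), fun _ => hall _ hx⟩⟩
  · refine IsSemilinearSet.of_finite ((hfin.image fun v => v.count b).subset ?_)
    rintro m ⟨v, hv, h1, h2⟩
    exact ⟨v, ⟨hv, h1⟩, h2⟩

theorem parikh_eq {w : List α} {a b : α} (hne : a ≠ b) (hab : ∀ c ∈ w, c = a ∨ c = b)
    {v : List α} (hv : v ∈ Lang w) :
    parikh v = AddMonoidHom.single (fun _ : α => ℕ) a (v.count a) +
      AddMonoidHom.single (fun _ : α => ℕ) b (v.count b) := by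
  funext c
  simp only [parikh, AddMonoidHom.single_apply, Pi.add_apply]
  by_cases h1 : c = a
  · subst h1
    rw [Pi.single_eq_same, Pi.single_eq_of_ne hne, add_zero]
  by_cases h2 : c = b
  · subst h2
    rw [Pi.single_eq_same, Pi.single_eq_of_ne h1, zero_add]
  · rw [Pi.single_eq_of_ne h1, Pi.single_eq_of_ne h2, add_zero, List.count_eq_zero]
    intro hc
    rcases hab c (letters hv c hc) with h | h
    · exact h1 h
    · exact h2 h

/-- the Parikh vectors of the words with `j` occurrences of `a` -/
theorem semi_part {w : List α} {a b : α} (hne : a ≠ b) (hab : ∀ c ∈ w, c = a ∨ c = b) (j : ℕ) :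
    IsSemilinearSet (parikh '' {v | v ∈ Lang w ∧ v.count a = j}) := by
  have h := ((semi_slice hne hab j).image (AddMonoidHom.single (fun _ : α => ℕ) b)).vadd
    (AddMonoidHom.single (fun _ : α => ℕ) a j)
  convert h using 1
  ext r
  constructor
  · rintro ⟨v, ⟨hv, hj⟩, rfl⟩
    rw [parikh_eq hne hab hv, hj]
    exact ⟨_, ⟨_, ⟨v, hv, hj, rfl⟩, rfl⟩, rfl⟩
  · rintro ⟨_, ⟨m, ⟨v, hv, hj, hm⟩, rfl⟩, rfl⟩
    refine ⟨v, ⟨hv, hj⟩, ?_⟩
    rw [parikh_eq hne hab hv, hj, hm]
    rfl

/-- **Theorem.** Let `w` be a word over any alphabet all letters of which are equal to `a` or `b`,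
where `a ≠ b`. Then the Parikh image of `L(w)` is semi-linear. -/
theorem result (w : List α) (a b : α) (hne : a ≠ b) (hab : ∀ c ∈ w, c = a ∨ c = b) :
    IsSemilinearSet (parikh '' Lang w) := by
  have hba : ∀ c ∈ w, c = b ∨ c = a := fun c hc => (hab c hc).symm
  by_cases ha : a ∈ w
  swap
  · have h := semi_part hne hab 0
    convert h using 2
    ext v
    refine ⟨fun hv => ⟨hv, List.count_eq_zero.2 fun h1 => ha (letters hv _ h1)⟩, fun hv => hv.1⟩
  by_cases hb : b ∈ w
  swap
  · have h := semi_part hne.symm hba 0
    convert h using 2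
    ext v
    refine ⟨fun hv => ⟨hv, List.count_eq_zero.2 fun h1 => hb (letters hv _ h1)⟩, fun hv => hv.1⟩
  obtain ⟨t, ht⟩ := make_last (self_mem w) hb
  obtain ⟨t', ht'⟩ := make_first ht (show a ∈ w ++ t ++ [b] by simp [ha])
  obtain ⟨z, hz⟩ : ∃ z, z = t' ++ (w ++ t) := ⟨_, rfl⟩
  have hstar : ∀ i i', [a] ++ (List.replicate i a ++ ((z ++ List.replicate i' b) ++ [b])) ∈
      Lang w := by
    intro i i'
    have h1 : ([a] ++ z) ++ [b] ∈ Lang w := by
      rw [hz]
      simpa using ht'
    have h2 := add_last h1 i'
    have h3 : [a] ++ ((z ++ List.replicate i' b) ++ [b]) ∈ Lang w := by simpa using h2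
    exact add_first h3 i
  obtain ⟨va, hva⟩ : ∃ va, va = z.count a + 1 := ⟨_, rfl⟩
  obtain ⟨vb, hvb⟩ : ∃ vb, vb = z.count b + 1 := ⟨_, rfl⟩
  -- the orthant
  have hO : IsSemilinearSet ((AddMonoidHom.single (fun _ : α => ℕ) a va +
      AddMonoidHom.single (fun _ : α => ℕ) b vb) +ᵥ
      ((AddMonoidHom.single (fun _ : α => ℕ) a '' Set.univ) +
        (AddMonoidHom.single (fun _ : α => ℕ) b '' Set.univ))) :=
    IsSemilinearSet.vadd _ ((IsSemilinearSet.univ.image _).add (IsSemilinearSet.univ.image _))
  have hU := (hO.union (IsSemilinearSet.biUnion (Set.finite_Iio va)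
    (fun j _ => semi_part hne hab j))).union (IsSemilinearSet.biUnion (Set.finite_Iio vb)
    (fun j _ => semi_part hne.symm hba j))
  convert hU using 1
  ext r
  constructor
  · rintro ⟨v, hv, rfl⟩
    by_cases h1 : v.count a < va
    · exact Or.inl (Or.inr (Set.mem_iUnion₂.2 ⟨v.count a, h1, v, ⟨hv, rfl⟩, rfl⟩))
    by_cases h2 : v.count b < vb
    · exact Or.inr (Set.mem_iUnion₂.2 ⟨v.count b, h2, v, ⟨hv, rfl⟩, rfl⟩)
    refine Or.inl (Or.inl ⟨_, ⟨_, ⟨v.count a - va, trivial, rfl⟩, _,
      ⟨v.count b - vb, trivial, rfl⟩, rfl⟩, ?_⟩)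
    rw [parikh_eq hne hab hv]
    have e1 : v.count a = va + (v.count a - va) := by omega
    have e2 : v.count b = vb + (v.count b - vb) := by omega
    conv_rhs => rw [e1, e2, map_add, map_add]
    simp only [vadd_eq_add]
    abel
  · rintro ((⟨_, ⟨_, ⟨i, -, rfl⟩, _, ⟨i', -, rfl⟩, rfl⟩, rfl⟩ | h) | h)
    · refine ⟨_, hstar i i', ?_⟩
      rw [parikh_eq hne hab (hstar i i')]
      have e1 : ([a] ++ (List.replicate i a ++ ((z ++ List.replicate i' b) ++ [b]))).count a =
          va + i := by
        rw [hva]
        simp only [List.count_append, List.count_replicate, List.count_singleton]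
        simp [hne.symm]
        omega
      have e2 : ([a] ++ (List.replicate i a ++ ((z ++ List.replicate i' b) ++ [b]))).count b =
          vb + i' := by
        rw [hvb]
        simp only [List.count_append, List.count_replicate, List.count_singleton]
        simp [hne]
        omega
      rw [e1, e2, map_add, map_add]
      simp only [vadd_eq_add]
      abel
    · obtain ⟨j, -, v, hv, rfl⟩ := Set.mem_iUnion₂.1 h
      exact ⟨v, hv.1, rfl⟩
    · obtain ⟨j, -, v, hv, rfl⟩ := Set.mem_iUnion₂.1 h
      exact ⟨v, hv.1, rfl⟩

end count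

end Pool.Agent.Results.MP_9a8bc6_lc.TwoLetters
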